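import Mathlib
import Pool.Agent.Helper50.PR.Defs
import Pool.Agent.Helper75.PR.PR10

/-!
# The relation combining theorem (MP_90a715_lc, module PR-11)
-/

open Finset

namespace Pool.Agent.Helper50.PR

theorem sprod_map {R S : Type*} [CommRing R] [CommRing S] (φ : R →+* S) (L : List R) :
    (sprod L).map φ = sprod (L.map φ) := by
  induction L with
  | nil => simp [sprod]
  | cons d l ih => rw [sprod, elim_map, ih, List.map_cons, sprod]

/-- signed sums of square roots are roots -/
theorem sprod_eval_sum {R : Type*} [CommRing R] (rs : List R) :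
    (sprod (rs.map (fun r => r ^ 2))).eval rs.sum = 0 := by
  induction rs with
  | nil => simp [sprod]
  | cons r rs ih =>
    rw [List.map_cons, sprod, elim_eval, List.sum_cons]
    have : r + rs.sum - r = rs.sum := by ring
    rw [this, ih, mul_zero]

/-- roots are bounded by the sum of the square roots -/
theorem abs_le_of_root (L : List ℝ) (hL : ∀ d ∈ L, 0 ≤ d) (x : ℝ) (hx : (sprod L).eval x = 0) :
    |x| ≤ (L.map Real.sqrt).sum := by
  induction L generalizing x with
  | nil => simpa [sprod] using hx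
  | cons d l ih =>
    have hd : 0 ≤ d := hL d (by simp)
    have hs : (√d) ^ 2 = d := Real.sq_sqrt hd
    rw [sprod, ← hs, elim_eval, mul_eq_zero] at hx
    rw [List.map_cons, List.sum_cons]
    have hs0 : 0 ≤ √d := Real.sqrt_nonneg d
    rcases hx with hx | hx
    · have h1 := ih (fun e he => hL e (by simp [he])) _ hx
      have h2 : |x| ≤ |x + √d| + |√d| := by
        have := abs_sub (x + √d) (√d)
        simpa using this
      rw [abs_of_nonneg hs0] at h2
      linarith
    · have h1 := ih (fun e he => hL e (by simp [he])) _ hx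
      have h2 : |x| ≤ |x - √d| + |√d| := by
        have := abs_add_le (x - √d) (√d)
        simpa using this
      rw [abs_of_nonneg hs0] at h2
      linarith

/-- each square root exceeds the sum of the later ones -/
def Super : List ℤ → Prop
  | [] => True
  | d :: l => 0 < d ∧ (l.map (fun e : ℤ => √(e : ℝ))).sum < √(d : ℝ) ∧ Super l

theorem Super.pos : ∀ {L : List ℤ}, Super L → ∀ d ∈ L, 0 < d
  | [], _, _, h => by simp at h
  | d :: l, hL, e, he => by
    rcases List.mem_cons.mp he with rfl | he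
    · exact hL.1
    · exact hL.2.2.pos e he

theorem exists_signs (L : List ℤ) (hL : Super L) (x : ℤ) (hx : (sprod L).eval x = 0) :
    ∃ rs : List ℤ, rs.map (fun r => r ^ 2) = L ∧ rs.sum = x := by
  induction L generalizing x with
  | nil => exact ⟨[], rfl, by simpa [sprod] using hx.symm⟩
  | cons d l ih =>
    obtain ⟨hd, hlt, hl⟩ := hL
    by_cases hsq : ∃ s : ℤ, d = s * s
    · obtain ⟨s, rfl⟩ := hsq
      rw [sprod, ← sq, elim_eval, mul_eq_zero] at hx
      rcases hx with hx | hx
      · obtain ⟨rs, h1, h2⟩ := ih hl _ hx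
        exact ⟨-s :: rs, by rw [List.map_cons, h1]; simp [sq], by rw [List.sum_cons, h2]; ring⟩
      · obtain ⟨rs, h1, h2⟩ := ih hl _ hx
        exact ⟨s :: rs, by rw [List.map_cons, h1]; simp [sq], by rw [List.sum_cons, h2]; ring⟩
    · exfalso
      push Not at hsq
      -- work in `ℤ[√d]`
      set φ : ℤ →+* ℤ√d := Int.castRingHom _ with hφ
      set σ : ℤ√d := Zsqrtd.sqrtd with hσ
      have hσ2 : σ ^ 2 = φ d := by
        rw [sq, hσ, Zsqrtd.dmuld]; rfl
      have h1 : (sprod (l.map φ)).eval (φ x + σ) * (sprod (l.map φ)).eval (φ x - σ) = 0 := by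
        rw [← elim_eval, hσ2, ← sprod_map, ← elim_map]
        rw [sprod] at hx
        have := congrArg φ hx
        rw [← Polynomial.eval_map_apply] at this
        simpa using this
      have hinj := Zsqrtd.toReal_injective hd.le hsq
      have hne : ∀ a b : ℤ√d, a * b = 0 → a = 0 ∨ b = 0 := by
        intro a b hab
        have := congrArg (Zsqrtd.toReal hd.le) hab
        rw [map_mul, map_zero, mul_eq_zero] at this
        rcases this with h | h
        · left; exact hinj (by rw [h, map_zero])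
        · right; exact hinj (by rw [h, map_zero])
      -- conjugation
      have hstar : ∀ a : ℤ√d, (sprod (l.map φ)).eval a = 0 → (sprod (l.map φ)).eval (star a) = 0 := by
        intro a ha
        have := congrArg (starRingEnd (ℤ√d)) ha
        rw [← Polynomial.eval_map_apply, sprod_map, List.map_map] at this
        have h2 : (starRingEnd (ℤ√d)) ∘ φ = φ := by
          funext n
          simp [hφ]
        rw [h2] at this
        simpa only [starRingEnd_apply, map_zero, star_zero] using this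
      have hst : star (φ x + σ) = φ x - σ := by
        ext <;> simp [hφ, hσ]
      have hst' : star (φ x - σ) = φ x + σ := by
        ext <;> simp [hφ, hσ]
      have hboth : (sprod (l.map φ)).eval (φ x + σ) = 0 ∧ (sprod (l.map φ)).eval (φ x - σ) = 0 := by
        rcases hne _ _ h1 with h | h
        · exact ⟨h, hst ▸ hstar _ h⟩
        · exact ⟨hst' ▸ hstar _ h, h⟩
      -- go to the reals
      have hreal : ∀ a : ℤ√d, (sprod (l.map φ)).eval a = 0 →
          |Zsqrtd.toReal hd.le a| ≤ (l.map (fun e : ℤ => √(e : ℝ))).sum := by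
        intro a ha
        have := congrArg (Zsqrtd.toReal hd.le) ha
        rw [← Polynomial.eval_map_apply, sprod_map, List.map_map, map_zero] at this
        have h2 : ((Zsqrtd.toReal hd.le : ℤ√d →+* ℝ) : ℤ√d → ℝ) ∘ φ = fun n : ℤ => (n : ℝ) := by
          funext n
          simp [hφ]
        rw [h2] at this
        have h3 := abs_le_of_root _ (by
          intro e he
          obtain ⟨n, hn, rfl⟩ := List.mem_map.mp he
          exact_mod_cast (hl.pos n hn).le) _ this
        rw [List.map_map] at h3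
        exact h3
      have e1 := hreal _ hboth.1
      have e2 := hreal _ hboth.2
      have hσr : Zsqrtd.toReal hd.le σ = √(d : ℝ) := by
        simp [Zsqrtd.toReal, hσ]
      rw [map_add, hσr] at e1
      rw [map_sub, hσr] at e2
      have h4 := abs_sub ((Zsqrtd.toReal hd.le) (φ x) + √(d : ℝ)) ((Zsqrtd.toReal hd.le) (φ x) - √(d : ℝ))
      have h5 : (Zsqrtd.toReal hd.le) (φ x) + √(d : ℝ) - ((Zsqrtd.toReal hd.le) (φ x) - √(d : ℝ))
          = 2 * √(d : ℝ) := by ring
      rw [h5, abs_of_nonneg (by positivity)] at h4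
      linarith

/-- size of the radicals -/
theorem scl_sum_le (v W : ℤ) (L : List ℤ) (hL : ∀ A ∈ L, 1 ≤ A ∧ A ≤ W - 1) :
    ((scl v W L).map (fun e : ℤ => √(e : ℝ))).sum ≤ |(v : ℝ)| * ((W : ℝ) ^ L.length - 1) := by
  induction L with
  | nil => simp [scl]
  | cons A l ih =>
    have hA := hL A (by simp)
    have hA1 : (1 : ℝ) ≤ A := by exact_mod_cast hA.1
    have hA2 : (A : ℝ) ≤ W - 1 := by exact_mod_cast hA.2
    have hW : (1 : ℝ) ≤ W := by linarith
    rw [scl, List.map_cons, List.sum_cons, List.length_cons]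
    have h1 := ih (fun B hB => hL B (by simp [hB]))
    have h2 : √(((v ^ 2 * A * W ^ (2 * l.length) : ℤ)) : ℝ) = |(v : ℝ)| * √(A : ℝ) * (W : ℝ) ^ l.length := by
      push_cast
      rw [Real.sqrt_mul (by positivity), Real.sqrt_mul (by positivity), Real.sqrt_sq_eq_abs,
        mul_comm 2 l.length, pow_mul, Real.sqrt_sq (by positivity)]
    have h3 : √(A : ℝ) ≤ W - 1 := by
      refine le_trans ?_ hA2
      rw [Real.sqrt_le_left (by linarith)]
      nlinarith
    rw [h2]
    have h4 : |(v : ℝ)| * √(A : ℝ) * (W : ℝ) ^ l.length ≤ |(v : ℝ)| * (W - 1) * (W : ℝ) ^ l.length := by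
      gcongr
    calc _ ≤ |(v : ℝ)| * (W - 1) * (W : ℝ) ^ l.length + |(v : ℝ)| * ((W : ℝ) ^ l.length - 1) :=
          add_le_add h4 h1
      _ = _ := by ring

theorem scl_super (v W : ℤ) (hv : v ≠ 0) (L : List ℤ) (hL : ∀ A ∈ L, 1 ≤ A ∧ A ≤ W - 1) :
    Super (scl v W L) := by
  induction L with
  | nil => exact trivial
  | cons A l ih =>
    have hA := hL A (by simp)
    have hW : 0 < W := by linarith [hA.1, hA.2]
    have hA1 : (1 : ℝ) ≤ A := by exact_mod_cast hA.1
    refine ⟨?_, ?_, ih (fun B hB => hL B (by simp [hB]))⟩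
    · have : 0 < A := by linarith [hA.1]
      positivity
    · refine lt_of_le_of_lt (scl_sum_le v W l (fun B hB => hL B (by simp [hB]))) ?_
      have h2 : √(((v ^ 2 * A * W ^ (2 * l.length) : ℤ)) : ℝ)
          = |(v : ℝ)| * √(A : ℝ) * (W : ℝ) ^ l.length := by
        have hW' : (0 : ℝ) < W := by exact_mod_cast hW
        push_cast
        rw [Real.sqrt_mul (by positivity), Real.sqrt_mul (by positivity), Real.sqrt_sq_eq_abs,
          mul_comm 2 l.length, pow_mul, Real.sqrt_sq (by positivity)]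
      rw [h2]
      have hv' : 0 < |(v : ℝ)| := abs_pos.mpr (by exact_mod_cast hv)
      have h3 : 1 ≤ √(A : ℝ) := by rw [Real.one_le_sqrt]; exact hA1
      have hWp : (0 : ℝ) < (W : ℝ) ^ l.length := by
        have hW' : (0 : ℝ) < W := by exact_mod_cast hW
        positivity
      rw [mul_assoc]
      refine mul_lt_mul_of_pos_left ?_ hv'
      nlinarith

/-- the roots are multiples of `v W^i` -/
theorem scl_signs (v W : ℤ) (hv : v ≠ 0) (L : List ℤ) (hL : ∀ A ∈ L, 1 ≤ A ∧ A ≤ W - 1)
    (rs : List ℤ) (hrs : rs.map (fun r => r ^ 2) = scl v W L) :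
    (∀ A ∈ L, IsSquare A) ∧ ∃ R : ℤ, rs.sum = v * R ∧ |R| ≤ W ^ L.length - 1 := by
  induction L generalizing rs with
  | nil =>
    rw [scl, List.map_eq_nil_iff] at hrs
    subst hrs
    exact ⟨by simp, 0, by simp, by simp⟩
  | cons A l ih =>
    have hA := hL A (by simp)
    have hW : 0 < W := by linarith [hA.1, hA.2]
    cases rs with
    | nil => simp [scl] at hrs
    | cons r rs =>
      rw [scl, List.map_cons, List.cons.injEq] at hrs
      obtain ⟨h1, h2⟩ := hrs
      obtain ⟨ih1, R, ih2, ih3⟩ := ih (fun B hB => hL B (by simp [hB])) rs h2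
      have hvW : v * W ^ l.length ≠ 0 := mul_ne_zero hv (pow_ne_zero _ hW.ne')
      have h3 : r ^ 2 = (v * W ^ l.length) ^ 2 * A := by rw [h1]; ring
      have h4 : v * W ^ l.length ∣ r := by
        rw [← Int.pow_dvd_pow_iff (n := 2) (by norm_num), h3]
        exact Dvd.intro _ rfl
      obtain ⟨ρ, rfl⟩ := h4
      have h5 : A = ρ ^ 2 := by
        have h6 : (v * W ^ l.length) ^ 2 ≠ 0 := pow_ne_zero _ hvW
        have h7 : (v * W ^ l.length) ^ 2 * A = (v * W ^ l.length) ^ 2 * ρ ^ 2 := by
          rw [← h3]; ring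
        exact mul_left_cancel₀ h6 h7
      have hρ : |ρ| ≤ W - 1 := by
        refine le_trans ?_ hA.2
        rw [h5]
        have h8 := sq_abs ρ
        have h9 : 0 ≤ |ρ| := abs_nonneg ρ
        rcases eq_or_lt_of_le h9 with h10 | h10
        · rw [← h10]; positivity
        · nlinarith
      refine ⟨?_, W ^ l.length * ρ + R, ?_, ?_⟩
      · intro B hB
        rcases List.mem_cons.mp hB with rfl | hB
        · exact ⟨ρ, by rw [h5, sq]⟩
        · exact ih1 B hB
      · rw [List.sum_cons, ih2]; ring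
      · have hWp : 0 < W ^ l.length := by positivity
        rw [List.length_cons]
        calc |W ^ l.length * ρ + R| ≤ |W ^ l.length * ρ| + |R| := abs_add_le _ _
          _ = W ^ l.length * |ρ| + |R| := by rw [abs_mul, abs_of_pos hWp]
          _ ≤ W ^ l.length * (W - 1) + (W ^ l.length - 1) :=
              add_le_add (mul_le_mul_of_nonneg_left hρ hWp.le) ih3
          _ = _ := by ring

theorem le_wt (L : List ℤ) (hL : ∀ A ∈ L, 1 ≤ A) : ∀ A ∈ L, 1 ≤ A ∧ A ≤ wt L - 1 := by
  intro A hA
  refine ⟨hL A hA, ?_⟩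
  have h1 : A ≤ A ^ 2 := by nlinarith [hL A hA]
  have h2 : A ^ 2 ≤ (L.map (fun A => A ^ 2)).sum := by
    refine List.single_le_sum ?_ _ (List.mem_map.mpr ⟨A, hA, rfl⟩)
    intro x hx
    obtain ⟨B, -, rfl⟩ := List.mem_map.mp hx
    positivity
  rw [wt]
  linarith

/-- explicit square roots -/
theorem scl_roots (v W : ℤ) (hW : 0 ≤ W) (L : List ℤ) (hL : ∀ A ∈ L, IsSquare A) :
    ∃ rs : List ℤ, rs.map (fun r => r ^ 2) = scl v W L ∧ ∃ R : ℤ, 0 ≤ R ∧ rs.sum = v * R := by
  induction L with
  | nil => exact ⟨[], rfl, 0, le_rfl, by simp⟩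
  | cons A l ih =>
    obtain ⟨rs, h1, R, h2, h3⟩ := ih (fun B hB => hL B (by simp [hB]))
    obtain ⟨a, ha⟩ := hL A (by simp)
    refine ⟨v * |a| * W ^ l.length :: rs, ?_, |a| * W ^ l.length + R, by positivity, ?_⟩
    · rw [List.map_cons, h1, scl, ha]
      congr 1
      rw [mul_pow, mul_pow, sq_abs, ← pow_mul, mul_comm l.length 2]
      ring
    · rw [List.sum_cons, h3]; ring

/-- PR-11 -/
theorem MR_iff (L : List ℤ) (hL : ∀ A ∈ L, 1 ≤ A) (S T D : ℤ) (hS : S ≠ 0) :
    (∃ n : ℕ, MR L S T D n = 0) ↔ ((∀ A ∈ L, IsSquare A) ∧ S ∣ T ∧ 0 < D) := by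
  have hv : S ^ 2 * (2 * D - 1) ≠ 0 := mul_ne_zero (pow_ne_zero _ hS) (by omega)
  have hLW := le_wt L hL
  have hW1 : 1 ≤ wt L := by
    rw [wt]
    have : 0 ≤ (L.map (fun A => A ^ 2)).sum := by
      refine List.sum_nonneg ?_
      intro x hx
      obtain ⟨B, -, rfl⟩ := List.mem_map.mp hx
      positivity
    linarith
  have hS2 : 0 < S ^ 2 := by positivity
  constructor
  · rintro ⟨n, hn⟩
    rw [MR] at hn
    obtain ⟨rs, h1, h2⟩ := exists_signs _ (scl_super _ _ hv L hLW) _ hn
    obtain ⟨h3, R, h4, h5⟩ := scl_signs _ _ hv L hLW rs h1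
    rw [h4] at h2
    have hΛ : 0 < T ^ 2 + wt L ^ L.length + R := by
      have := neg_abs_le R
      nlinarith [sq_nonneg T]
    have h6 : S ^ 2 * (n : ℤ) + T ^ 2 = S ^ 2 * ((2 * D - 1) * (T ^ 2 + wt L ^ L.length + R)) := by
      linear_combination -h2
    refine ⟨h3, ?_, ?_⟩
    · rw [← Int.pow_dvd_pow_iff (n := 2) (by norm_num)]
      exact ⟨(2 * D - 1) * (T ^ 2 + wt L ^ L.length + R) - n, by linear_combination h6⟩
    · by_contra hD
      push Not at hD
      have h7 : 0 ≤ S ^ 2 * (n : ℤ) + T ^ 2 := by positivity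
      have h8 : S ^ 2 * ((2 * D - 1) * (T ^ 2 + wt L ^ L.length + R)) < 0 := by
        refine mul_neg_of_pos_of_neg hS2 (mul_neg_of_neg_of_pos (by linarith) hΛ)
      linarith
  · rintro ⟨h1, ⟨t, rfl⟩, hD⟩
    obtain ⟨rs, h2, R, h3, h4⟩ := scl_roots (S ^ 2 * (2 * D - 1)) (wt L) (by linarith) L h1
    have hnn : 0 ≤ (2 * D - 1) * ((S * t) ^ 2 + wt L ^ L.length + R) - t ^ 2 := by
      have h5 : t ^ 2 ≤ (S * t) ^ 2 := by
        rw [mul_pow]
        nlinarith [sq_nonneg t]
      have h6 : 0 ≤ wt L ^ L.length := by positivity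
      have h7 : 1 ≤ 2 * D - 1 := by linarith
      nlinarith [sq_nonneg (S * t)]
    obtain ⟨n, hn⟩ := Int.eq_ofNat_of_zero_le hnn
    refine ⟨n, ?_⟩
    rw [MR, ← h2]
    have h8 : S ^ 2 * ((n : ℕ) : ℤ) + (S * t) ^ 2
        - S ^ 2 * (2 * D - 1) * ((S * t) ^ 2 + wt L ^ L.length) = rs.sum := by
      rw [h4]
      have : ((n : ℕ) : ℤ) = (2 * D - 1) * ((S * t) ^ 2 + wt L ^ L.length + R) - t ^ 2 := by
        rw [hn]
      rw [this]
      ring
    rw [h8]
    exact sprod_eval_sum rs

end Pool.Agent.Helper50.PR
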